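import Mathlib

/-!
# MP_1d6438_gt: a metric space with closed discrete distance set and without the uniqueness property
-/

set_option autoImplicit false

open Set Topology Metric
open scoped ENNReal

universe u

namespace Pool.Agent.Results.MP_1d6438_gt.NotUnique

/-- The Gromov-Hausdorff distance of two metric spaces, in `[0, ∞]`: the infimum of the Hausdorff distances
of their isometric copies in common metric spaces `Z`. -/
noncomputable def dGH (X Y : Type u) [MetricSpace X] [MetricSpace Y] : ℝ≥0∞ :=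
  sInf {r | ∃ (Z : Type u) (_ : MetricSpace Z) (f : X → Z) (g : Y → Z), Isometry f ∧ Isometry g ∧
    r = hausdorffEDist (range f) (range g)}

/-- the distance set -/
def distSet (X : Type u) [MetricSpace X] : Set ℝ := {r | ∃ x y : X, r = dist x y}

/-- the numbers `4, 16, 64, ...` -/
noncomputable def L (k : ℕ) : ℝ := 4 ^ (k + 1)

theorem L_ge (k : ℕ) : 4 ≤ L k := by
  unfold L
  calc (4 : ℝ) = 4 ^ 1 := by norm_num
    _ ≤ 4 ^ (k + 1) := pow_le_pow_right₀ (by norm_num) (by omega)

theorem L_strictMono : StrictMono L := fun a b h => by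
  unfold L
  exact pow_lt_pow_right₀ (by norm_num) (by omega)

theorem L_gt (k : ℕ) : (k : ℝ) < L k := by
  unfold L
  have h1 : k < 4 ^ (k + 1) := by
    calc k < 4 ^ k := Nat.lt_pow_self (by norm_num)
      _ ≤ 4 ^ (k + 1) := Nat.pow_le_pow_right (by norm_num) (by omega)
  exact_mod_cast h1

/-- the points: a sequence `inl k` and the points of a set `N` -/
def Sp (N : Type) (_δ : ℕ → N → Icc (0 : ℝ) (1 / 2)) : Type := ℕ ⊕ N

section space

variable {N : Type} (δ : ℕ → N → Icc (0 : ℝ) (1 / 2))

/-- the points of the sequence -/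
def pa (k : ℕ) : Sp N δ := Sum.inl k

/-- the points of `N` -/
def pn (x : N) : Sp N δ := Sum.inr x

open Classical in
/-- the distance -/
noncomputable def dd : ℕ ⊕ N → ℕ ⊕ N → ℝ
  | Sum.inl k, Sum.inl l => if k = l then 0 else L k + L l
  | Sum.inl k, Sum.inr x => L k + (δ k x : ℝ)
  | Sum.inr x, Sum.inl k => L k + (δ k x : ℝ)
  | Sum.inr x, Sum.inr y => if x = y then 0 else 1

theorem dd_triangle (p q r : ℕ ⊕ N) : dd δ p r ≤ dd δ p q + dd δ q r := by
  rcases p with k | x <;> rcases q with l | y <;> rcases r with m | z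
  · have h1 := L_ge k; have h2 := L_ge l; have h3 := L_ge m
    simp only [dd]
    split_ifs <;> subst_vars <;> first | linarith | (exfalso; omega)
  · have h1 := L_ge k; have h2 := L_ge l
    have a1 := (δ k z).2.2; have a2 := (δ l z).2.1
    simp only [dd]
    split_ifs with h
    · subst h; linarith
    · linarith
  · have h1 := L_ge k; have h2 := L_ge m
    have a1 := (δ k y).2.1; have a2 := (δ m y).2.1
    simp only [dd]
    split_ifs <;> linarith
  · have a1 := (δ k z).2.2; have a2 := (δ k y).2.1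
    simp only [dd]
    split_ifs with h
    · subst h; linarith
    · linarith
  · have h1 := L_ge l; have h2 := L_ge m
    have a1 := (δ m x).2.2; have a2 := (δ l x).2.1
    simp only [dd]
    split_ifs with h
    · subst h; linarith
    · linarith
  · have h1 := L_ge l
    have a1 := (δ l x).2.1; have a2 := (δ l z).2.1
    simp only [dd]
    split_ifs <;> linarith
  · have a1 := (δ m x).2.2; have a2 := (δ m y).2.1
    simp only [dd]
    split_ifs with h
    · subst h; linarith
    · linarith
  · simp only [dd]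
    split_ifs with h1 h2 h3 h3 h2 h3 h3
    all_goals first | linarith | (exfalso; subst_vars; simp_all)

noncomputable instance : MetricSpace (Sp N δ) where
  dist p q := dd δ p q
  dist_self p := by
    rcases p with k | x <;> simp [dd]
  dist_comm p q := by
    rcases p with k | x <;> rcases q with l | y <;> simp only [dd]
    · split_ifs <;> first | rfl | (subst_vars; simp_all) | ring
    · split_ifs <;> first | rfl | (subst_vars; simp_all)
  dist_triangle p q r := dd_triangle δ p q r
  eq_of_dist_eq_zero := by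
    intro p q h
    rcases p with k | x <;> rcases q with l | y <;> simp only [dd] at h
    · split_ifs at h with h'
      · rw [h']
      · have h1 := L_ge k; have h2 := L_ge l; exfalso; linarith
    · have h1 := L_ge k; have a2 := (δ k y).2.1; exfalso; linarith
    · have h1 := L_ge l; have a2 := (δ l x).2.1; exfalso; linarith
    · split_ifs at h with h'
      · rw [h']
      · exfalso; linarith

theorem dist_aa {k l : ℕ} (h : k ≠ l) : dist (pa δ k) (pa δ l) = L k + L l := by
  change dd δ (Sum.inl k) (Sum.inl l) = _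
  simp [dd, h]

theorem dist_an (k : ℕ) (x : N) : dist (pa δ k) (pn δ x) = L k + (δ k x : ℝ) := rfl

theorem dist_nn {x y : N} (h : x ≠ y) : dist (pn δ x) (pn δ y) = 1 := by
  change dd δ (Sum.inr x) (Sum.inr y) = _
  simp [dd, h]

theorem cases_Sp (p : Sp N δ) : (∃ k, p = pa δ k) ∨ ∃ x, p = pn δ x := by
  rcases p with k | x
  · exact Or.inl ⟨k, rfl⟩
  · exact Or.inr ⟨x, rfl⟩

/-- distances from `pa k` to other points -/
theorem le_dist_a {k : ℕ} {p : Sp N δ} (h : p ≠ pa δ k) : L k ≤ dist (pa δ k) p := by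
  rcases cases_Sp δ p with ⟨l, rfl⟩ | ⟨x, rfl⟩
  · have hkl : k ≠ l := fun h' => h (by rw [h'])
    rw [dist_aa δ hkl]
    have := L_ge l
    linarith
  · rw [dist_an]
    have := (δ k x).2.1
    linarith

end space

/-- If the values of `δ k` are finite in number for every `k` then the distance set is closed and discrete. -/
theorem finite_dist {N : Type} (δ : ℕ → N → Icc (0 : ℝ) (1 / 2)) (hδ : ∀ k, (range (δ k)).Finite) (R : ℝ) :
    (distSet (Sp N δ) ∩ Iic R).Finite := by
  obtain ⟨K, hK⟩ := exists_nat_gt R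
  have hk : ∀ k, L k ≤ R → k < K := by
    intro k hk
    have h1 := L_gt k
    have h2 : (k : ℝ) < K := by linarith
    exact_mod_cast h2
  have hfin : (({0, 1} : Set ℝ) ∪ (⋃ k ∈ Iio K, ⋃ l ∈ Iio K, {L k + L l}) ∪
      (⋃ k ∈ Iio K, (fun t : Icc (0 : ℝ) (1 / 2) => L k + (t : ℝ)) '' range (δ k))).Finite := by
    refine ((toFinite _).union ?_).union ?_
    · exact (finite_Iio K).biUnion fun k _ => (finite_Iio K).biUnion fun l _ => finite_singleton _
    · exact (finite_Iio K).biUnion fun k _ => (hδ k).image _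
  refine hfin.subset ?_
  have hpn : ∀ k x, L k + (δ k x : ℝ) ≤ R → L k + (δ k x : ℝ) ∈
      ((⋃ k ∈ Iio K, (fun t : Icc (0 : ℝ) (1 / 2) => L k + (t : ℝ)) '' range (δ k)) : Set ℝ) := by
    intro k x h
    have h1 := (δ k x).2.1
    have h2 : k < K := hk k (by linarith)
    exact mem_biUnion (show k ∈ Iio K from h2) ⟨δ k x, ⟨x, rfl⟩, rfl⟩
  rintro r ⟨⟨p, q, rfl⟩, hR⟩
  have hR' : dist p q ≤ R := hR
  rcases cases_Sp δ p with ⟨k, rfl⟩ | ⟨x, rfl⟩ <;> rcases cases_Sp δ q with ⟨l, rfl⟩ | ⟨y, rfl⟩
  · by_cases hkl : k = l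
    · subst hkl
      left; left
      rw [dist_self]
      exact Or.inl rfl
    · left; right
      rw [dist_aa δ hkl] at hR' ⊢
      have h1 := L_ge k; have h2 := L_ge l
      exact mem_biUnion (show k ∈ Iio K from hk k (by linarith))
        (mem_biUnion (show l ∈ Iio K from hk l (by linarith)) rfl)
  · right
    rw [dist_an] at hR' ⊢
    exact hpn _ _ hR'
  · right
    rw [dist_comm, dist_an] at hR' ⊢
    exact hpn _ _ hR'
  · by_cases hxy : x = y
    · subst hxy
      left; left
      rw [dist_self]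
      exact Or.inl rfl
    · left; left
      rw [dist_nn δ hxy]
      exact Or.inr rfl

theorem closed_discrete_of_finite {S : Set ℝ} (h : ∀ R, (S ∩ Iic R).Finite) : IsClosed S ∧ DiscreteTopology S := by
  have hcl : IsClosed S := by
    rw [← closure_subset_iff_isClosed]
    intro x hx
    have h1 : x ∈ closure (S ∩ Iic (x + 1)) := by
      rw [mem_closure_iff_nhds] at hx ⊢
      intro t ht
      obtain ⟨y, ⟨hyt, hy1⟩, hyS⟩ := hx (t ∩ Iio (x + 1)) (Filter.inter_mem ht (Iio_mem_nhds (by linarith)))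
      exact ⟨y, hyt, hyS, (mem_Iio.mp hy1).le⟩
    rw [(h (x + 1)).isClosed.closure_eq] at h1
    exact h1.1
  refine ⟨hcl, ?_⟩
  rw [discreteTopology_iff_isOpen_singleton]
  intro x
  have hfin : ((S ∩ Iic (x.1 + 1)) \ {x.1}).Finite := (h _).subset diff_subset
  have ho : IsOpen (((S ∩ Iic (x.1 + 1)) \ {x.1})ᶜ ∩ Iio (x.1 + 1)) := hfin.isClosed.isOpen_compl.inter isOpen_Iio
  rw [isOpen_induced_iff]
  refine ⟨_, ho, ?_⟩
  ext y
  constructor
  · rintro ⟨h1, h2⟩
    by_contra hne
    exact h1 ⟨⟨y.2, mem_Iic.mpr (mem_Iio.mp h2).le⟩, fun h3 => hne (Subtype.ext h3)⟩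
  · intro hy
    rw [mem_singleton_iff] at hy
    subst hy
    exact ⟨fun h1 => h1.2 rfl, mem_Iio.mpr (by linarith)⟩

/-- the small corrections for natural numbers -/
noncomputable def dn (k n : ℕ) : Icc (0 : ℝ) (1 / 2) :=
  if n ≤ k then ⟨1 / (2 * ((n : ℝ) + 1)), by positivity, by
    apply one_div_le_one_div_of_le (by norm_num)
    have : (0 : ℝ) ≤ n := Nat.cast_nonneg n
    linarith⟩ else ⟨0, le_rfl, by norm_num⟩

/-- the corrections for the space with the additional point `∞ = none` -/
noncomputable def dX (k : ℕ) : Option ℕ → Icc (0 : ℝ) (1 / 2)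
  | none => ⟨0, le_rfl, by norm_num⟩
  | some n => dn k n

theorem range_dn (k : ℕ) : (range (dn k)).Finite := by
  have h : range (dn k) ⊆ insert ⟨0, le_rfl, by norm_num⟩ (dn k '' Iic k) := by
    rintro _ ⟨n, rfl⟩
    by_cases hn : n ≤ k
    · exact Or.inr ⟨n, hn, rfl⟩
    · left
      unfold dn
      rw [if_neg hn]
  exact (((finite_Iic k).image _).insert _).subset h

theorem range_dX (k : ℕ) : (range (dX k)).Finite := by
  have h : range (dX k) ⊆ insert ⟨0, le_rfl, by norm_num⟩ (range (dn k)) := by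
    rintro _ ⟨(_ | n), rfl⟩
    · exact Or.inl rfl
    · exact Or.inr ⟨n, rfl⟩
  exact ((range_dn k).insert _).subset h

/-- the space `X` -/
abbrev XX : Type := Sp (Option ℕ) dX

/-- the space `Y` -/
abbrev YY : Type := Sp ℕ dn

theorem dn_le (k n : ℕ) : (dn k n : ℝ) ≤ 1 / (2 * ((n : ℝ) + 1)) := by
  unfold dn
  split_ifs
  · exact le_rfl
  · positivity

theorem not_isometric : IsEmpty (XX ≃ᵢ YY) := by
  refine ⟨fun g => ?_⟩
  -- points of `N` are characterised by having a point at distance one
  have hA : ∀ k, ∃ l, g (pa dX k) = pa dn l := by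
    intro k
    rcases cases_Sp dn (g (pa dX k)) with h | ⟨n, hn⟩
    · exact h
    · exfalso
      have h1 : dist (pn dn n) (pn dn (n + 1)) = 1 := dist_nn dn (by omega)
      rw [← hn, ← g.apply_symm_apply (pn dn (n + 1)), g.dist_eq] at h1
      have h2 : g.symm (pn dn (n + 1)) ≠ pa dX k := by
        intro h
        rw [h, dist_self] at h1
        exact zero_ne_one h1
      have h3 := le_dist_a dX h2
      have h4 := L_ge k
      linarith
  have hσ : ∀ k, g (pa dX k) = pa dn k := by
    intro k
    obtain ⟨l, hl⟩ := hA k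
    have h1 : L l ≤ L k := by
      have e : dist (pa dX k) (pn dX none) = L k := by
        rw [dist_an]; simp [dX]
      rw [← g.dist_eq, hl] at e
      rw [← e]
      refine le_dist_a dn fun h => ?_
      rw [h, dist_self] at e
      have := L_ge k
      linarith
    have h2 : L k ≤ L l := by
      have e : dist (pa dn l) (pn dn (l + 1)) = L l := by
        rw [dist_an]; simp [dn]
      rw [← hl, ← g.apply_symm_apply (pn dn (l + 1)), g.dist_eq] at e
      rw [← e]
      refine le_dist_a dX fun h => ?_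
      rw [h, dist_self] at e
      have := L_ge l
      linarith
    rw [hl, L_strictMono.injective (le_antisymm h1 h2)]
  rcases cases_Sp dn (g (pn dX none)) with ⟨k, hk⟩ | ⟨n, hn⟩
  · rw [← hσ k] at hk
    have := g.injective hk
    exact absurd this (by rintro ⟨⟩)
  · have e : dist (pa dX n) (pn dX none) = L n := by
      rw [dist_an]; simp [dX]
    rw [← g.dist_eq, hσ, hn, dist_an] at e
    have h2 : (dn n n : ℝ) = 1 / (2 * ((n : ℝ) + 1)) := by simp [dn]
    rw [h2] at e
    have h3 : (0 : ℝ) < 1 / (2 * ((n : ℝ) + 1)) := by positivity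
    linarith

/-- the bijections -/
def em (m : ℕ) : Option ℕ → ℕ
  | none => m
  | some n => if n < m then n else n + 1

theorem em_inj (m : ℕ) : Function.Injective (em m) := by
  intro x y h
  rcases x with _ | x <;> rcases y with _ | y <;> simp only [em] at h
  · rfl
  · split_ifs at h <;> omega
  · split_ifs at h <;> omega
  · congr 1
    split_ifs at h <;> omega

theorem em_surj (m n : ℕ) : ∃ x, em m x = n := by
  rcases lt_trichotomy n m with h | h | h
  · exact ⟨some n, by simp [em, h]⟩
  · exact ⟨none, by simp [em, h]⟩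
  · refine ⟨some (n - 1), ?_⟩
    simp only [em]
    rw [if_neg (by omega)]
    omega

/-- the induced maps -/
def Em (m : ℕ) : XX → YY
  | Sum.inl k => Sum.inl k
  | Sum.inr x => Sum.inr (em m x)

theorem Em_a (m k : ℕ) : Em m (pa dX k) = pa dn k := rfl
theorem Em_n (m : ℕ) (x : Option ℕ) : Em m (pn dX x) = pn dn (em m x) := rfl

theorem em_dist (m k : ℕ) (x : Option ℕ) : |(dX k x : ℝ) - (dn k (em m x) : ℝ)| ≤ 1 / ((m : ℝ) + 1) := by
  have hle : (1 : ℝ) / (2 * ((m : ℝ) + 1)) ≤ 1 / ((m : ℝ) + 1) := by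
    apply one_div_le_one_div_of_le (by positivity)
    have : (0 : ℝ) ≤ m := Nat.cast_nonneg m
    linarith
  rcases x with _ | n
  · have h1 : (dX k none : ℝ) = 0 := rfl
    have h2 := dn_le k m
    have h3 := (dn k m).2.1
    rw [h1, abs_le]
    change -(1 / ((m : ℝ) + 1)) ≤ 0 - (dn k m : ℝ) ∧ 0 - (dn k m : ℝ) ≤ 1 / ((m : ℝ) + 1)
    constructor <;> linarith
  · have h1 : (dX k (some n) : ℝ) = dn k n := rfl
    rw [h1]
    by_cases hn : n < m
    · have : em m (some n) = n := by simp [em, hn]
      rw [this, sub_self, abs_zero]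
      positivity
    · have : em m (some n) = n + 1 := by simp [em, hn]
      rw [this]
      have h2 := dn_le k n
      have h3 := (dn k n).2.1
      have h4 := dn_le k (n + 1)
      have h5 := (dn k (n + 1)).2.1
      have h6 : (1 : ℝ) / (2 * ((n : ℝ) + 1)) ≤ 1 / ((m : ℝ) + 1) := by
        apply one_div_le_one_div_of_le (by positivity)
        have h8 : (m : ℝ) ≤ n := by exact_mod_cast not_lt.mp hn
        have h9 : (0 : ℝ) ≤ n := Nat.cast_nonneg n
        linarith
      have h7 : (1 : ℝ) / (2 * (((n + 1 : ℕ) : ℝ) + 1)) ≤ 1 / ((m : ℝ) + 1) := by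
        apply one_div_le_one_div_of_le (by positivity)
        have h8 : (m : ℝ) ≤ n := by exact_mod_cast not_lt.mp hn
        have h9 : (0 : ℝ) ≤ n := Nat.cast_nonneg n
        push_cast
        linarith
      rw [abs_le]
      constructor <;> linarith

theorem distortion (m : ℕ) (p q : XX) : |dist p q - dist (Em m p) (Em m q)| ≤ 2 * (1 / ((m : ℝ) + 1)) := by
  have hpos : (0 : ℝ) < 1 / ((m : ℝ) + 1) := by positivity
  rcases cases_Sp dX p with ⟨k, rfl⟩ | ⟨x, rfl⟩ <;> rcases cases_Sp dX q with ⟨l, rfl⟩ | ⟨y, rfl⟩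
  · rw [Em_a, Em_a]
    by_cases h : k = l
    · subst h; simp; positivity
    · rw [dist_aa dX h, dist_aa dn h, sub_self, abs_zero]; positivity
  · rw [Em_a, Em_n, dist_an, dist_an]
    have := em_dist m k y
    rw [add_sub_add_left_eq_sub]
    linarith
  · rw [Em_a, Em_n, dist_comm, dist_comm (pn dn _), dist_an, dist_an]
    have := em_dist m l x
    rw [add_sub_add_left_eq_sub]
    linarith
  · rw [Em_n, Em_n]
    by_cases h : x = y
    · subst h; simp; positivity
    · have h' : em m x ≠ em m y := fun h'' => h (em_inj m h'')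
      rw [dist_nn dX h, dist_nn dn h', sub_self, abs_zero]; positivity

theorem dGH_zero : dGH XX YY = 0 := by
  have key : ∀ m : ℕ, dGH XX YY ≤ ENNReal.ofReal (1 / ((m : ℝ) + 1)) := by
    intro m
    have hε : (0 : ℝ) < 1 / ((m : ℝ) + 1) := by positivity
    haveI : Nonempty XX := ⟨pa dX 0⟩
    let M : MetricSpace (XX ⊕ YY) := Metric.glueMetricApprox (id : XX → XX) (Em m) (1 / ((m : ℝ) + 1)) hε
      (fun p q => distortion m p q)
    have hl : @Isometry XX (XX ⊕ YY) _ M.toPseudoMetricSpace.toPseudoEMetricSpace (Sum.inl : XX → XX ⊕ YY) := by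
      letI := M
      exact Isometry.of_dist_eq fun x y => rfl
    have hr : @Isometry YY (XX ⊕ YY) _ M.toPseudoMetricSpace.toPseudoEMetricSpace (Sum.inr : YY → XX ⊕ YY) := by
      letI := M
      exact Isometry.of_dist_eq fun x y => rfl
    refine le_trans (sInf_le ⟨XX ⊕ YY, M, Sum.inl, Sum.inr, hl, hr, rfl⟩) ?_
    letI := M
    have hglue : ∀ p : XX, dist (Sum.inl p : XX ⊕ YY) (Sum.inr (Em m p)) = 1 / ((m : ℝ) + 1) := fun p =>
      Metric.glueDist_glued_points (id : XX → XX) (Em m) (1 / ((m : ℝ) + 1)) p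
    refine hausdorffEDist_le_of_mem_edist ?_ ?_
    · rintro _ ⟨p, rfl⟩
      refine ⟨_, ⟨Em m p, rfl⟩, ?_⟩
      rw [edist_dist, hglue]
    · rintro _ ⟨q, rfl⟩
      obtain ⟨p, hp⟩ : ∃ p, Em m p = q := by
        rcases cases_Sp dn q with ⟨k, rfl⟩ | ⟨n, rfl⟩
        · exact ⟨pa dX k, rfl⟩
        · obtain ⟨x, hx⟩ := em_surj m n
          exact ⟨pn dX x, by rw [Em_n, hx]⟩
      refine ⟨_, ⟨p, rfl⟩, ?_⟩
      rw [← hp, edist_comm, edist_dist, hglue]
  refine le_antisymm ?_ zero_le
  refine ge_of_tendsto' (f := fun m : ℕ => ENNReal.ofReal (1 / ((m : ℝ) + 1))) (x := Filter.atTop) ?_ key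
  have h1 := tendsto_one_div_add_atTop_nhds_zero_nat (𝕜 := ℝ)
  have h2 := ENNReal.tendsto_ofReal h1
  rwa [ENNReal.ofReal_zero] at h2

/-- **There are metric spaces `X`, `Y` with `d_GH(X,Y) = 0` which are not isometric although the distance set
of `X` (and of `Y`) is a closed discrete subset of `ℝ`.** -/
theorem result : ∃ (X Y : Type) (_ : MetricSpace X) (_ : MetricSpace Y), Nonempty X ∧ Nonempty Y ∧
    (IsClosed (distSet X) ∧ DiscreteTopology (distSet X)) ∧ dGH X Y = 0 ∧ IsEmpty (X ≃ᵢ Y) :=
  ⟨XX, YY, inferInstance, inferInstance, ⟨pa dX 0⟩, ⟨pa dn 0⟩,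
    closed_discrete_of_finite (finite_dist dX range_dX), dGH_zero, not_isometric⟩

end Pool.Agent.Results.MP_1d6438_gt.NotUnique
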